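import Mathlib

/-! # YT.TwoId : a function of many variables which satisfies an alternating and a symmetric identity is zero (complete)

`F (x_1, .., x_N)` with values in a torsion-free group; the alternating sum over the permutations of any `k` variables and the sum over the permutations of any `m` variables vanish.  Then `F = 0` if `N` is large
(representation theory: no Young diagram with `N > (k-1)(m-1)` boxes has less than `k` rows and less than `m` columns; here an elementary proof with a larger bound).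
Induction on `k`.  If `D` satisfies the identities for `k + 1` and `m` and alternates in `m` disjoint blocks of size `k ≥ 1` then `D = 0`: the alternating identity for a block `B` and one more variable `y` gives `D = ∑_(x ∈ B) D ∘ (x y)`;
so for a permutation `σ` of the `m` blocks and `E_σ = ∑_t D ∘ σ^t` (sum over all transversals `t`, `σ^t` permutes the elements of `t`) `k^a E_σ = k^m D`, and `∑_σ E_σ = 0` by the symmetric identity. -/

namespace H67.YT

open Finset

variable {ι A T : Type} [Fintype ι] [DecidableEq ι] [AddCommGroup T]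

/-- permuting the variables -/
def act (σ : Equiv.Perm ι) (F : (ι → A) → T) : (ι → A) → T := fun x => F (x ∘ σ)

omit [Fintype ι] [DecidableEq ι] [AddCommGroup T] in
theorem act_mul (σ τ : Equiv.Perm ι) (F : (ι → A) → T) : act (σ * τ) F = act σ (act τ F) := rfl

omit [Fintype ι] [DecidableEq ι] [AddCommGroup T] in
theorem act_one (F : (ι → A) → T) : act 1 F = F := rfl

omit [Fintype ι] [DecidableEq ι] in
theorem act_sum {β : Type} (s : Finset β) (σ : Equiv.Perm ι) (F : β → (ι → A) → T) :
    act σ (∑ b ∈ s, F b) = ∑ b ∈ s, act σ (F b) := by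
  funext x
  unfold act
  rw [Finset.sum_apply, Finset.sum_apply]

omit [Fintype ι] [DecidableEq ι] in
theorem act_zsmul (σ : Equiv.Perm ι) (n : ℤ) (F : (ι → A) → T) : act σ (n • F) = n • act σ F := rfl

omit [Fintype ι] [DecidableEq ι] in
theorem act_zero (σ : Equiv.Perm ι) : act σ (0 : (ι → A) → T) = 0 := rfl

/-- the permutations of the subset `S` -/
def SymS (S : Finset ι) : Finset (Equiv.Perm ι) := univ.filter fun σ => ∀ x, x ∉ S → σ x = x

theorem mem_SymS {S : Finset ι} {σ : Equiv.Perm ι} : σ ∈ SymS S ↔ ∀ x, x ∉ S → σ x = x := by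
  unfold SymS
  rw [mem_filter]
  exact ⟨fun h => h.2, fun h => ⟨mem_univ _, h⟩⟩

theorem SymS_mono {S U : Finset ι} (h : S ⊆ U) {σ : Equiv.Perm ι} (hσ : σ ∈ SymS S) : σ ∈ SymS U :=
  mem_SymS.2 fun x hx => mem_SymS.1 hσ x fun hS => hx (h hS)

theorem SymS_mem {S : Finset ι} {σ : Equiv.Perm ι} (hσ : σ ∈ SymS S) {x : ι} (hx : x ∈ S) : σ x ∈ S := by
  by_contra h
  have h1 := mem_SymS.1 hσ (σ x) h
  exact h (by rw [σ.injective h1]; exact hx)

theorem SymS_mul {S : Finset ι} {σ τ : Equiv.Perm ι} (hσ : σ ∈ SymS S) (hτ : τ ∈ SymS S) : σ * τ ∈ SymS S :=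
  mem_SymS.2 fun x hx => by
    rw [Equiv.Perm.mul_apply, mem_SymS.1 hτ x hx, mem_SymS.1 hσ x hx]

theorem SymS_inv {S : Finset ι} {σ : Equiv.Perm ι} (hσ : σ ∈ SymS S) : σ⁻¹ ∈ SymS S :=
  mem_SymS.2 fun x hx => by
    rw [Equiv.Perm.inv_eq_iff_eq]
    exact (mem_SymS.1 hσ x hx).symm

theorem SymS_one (S : Finset ι) : (1 : Equiv.Perm ι) ∈ SymS S := mem_SymS.2 fun _ _ => rfl

theorem SymS_empty : SymS (∅ : Finset ι) = {1} := by
  ext σ
  rw [mem_SymS, mem_singleton]
  constructor
  · intro h
    exact Equiv.ext fun x => h x (notMem_empty x)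
  · rintro rfl x _
    rfl

theorem SymS_single (i : ι) : SymS ({i} : Finset ι) = {1} := by
  ext σ
  rw [mem_SymS, mem_singleton]
  constructor
  · intro h
    refine Equiv.ext fun x => ?_
    by_cases hx : x = i
    · subst hx
      by_contra hne
      have h1 : σ x ∉ ({x} : Finset ι) := by
        rw [mem_singleton]
        exact hne
      exact hne (σ.injective (h _ h1))
    · exact h x (by rw [mem_singleton]; exact hx)
  · rintro rfl x _
    rfl

theorem swap_mem {S : Finset ι} {x y : ι} (hx : x ∈ S) (hy : y ∈ S) : Equiv.swap x y ∈ SymS S :=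
  mem_SymS.2 fun _ hz => Equiv.swap_apply_of_ne_of_ne (fun h => hz (h ▸ hx)) (fun h => hz (h ▸ hy))

/-- the alternating sum over the permutations of `S` -/
def alt (S : Finset ι) (F : (ι → A) → T) : (ι → A) → T := ∑ σ ∈ SymS S, (Equiv.Perm.sign σ : ℤ) • act σ F

/-- the sum over the permutations of `S` -/
def sm (S : Finset ι) (F : (ι → A) → T) : (ι → A) → T := ∑ σ ∈ SymS S, act σ F

/-- the two identities for subsets of `U` -/
structure VV (k m : ℕ) (U : Finset ι) (F : (ι → A) → T) : Prop where
  al : ∀ S ⊆ U, S.card = k → alt S F = 0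
  sm : ∀ S ⊆ U, S.card = m → sm S F = 0

/-- `F` alternates in the variables of `B` -/
def AltOn (B : Finset ι) (F : (ι → A) → T) : Prop := ∀ τ ∈ SymS B, act τ F = (Equiv.Perm.sign τ : ℤ) • F

theorem SymS_conj {S : Finset ι} {τ σ : Equiv.Perm ι} : τ⁻¹ * σ * τ ∈ SymS (S.map (τ⁻¹).toEmbedding) ↔ σ ∈ SymS S := by
  rw [mem_SymS, mem_SymS]
  constructor
  · intro h x hx
    have h1 : τ⁻¹ x ∉ S.map (τ⁻¹).toEmbedding := by
      intro h2
      obtain ⟨y, hy, he⟩ := mem_map.1 h2
      exact hx (by rw [← (τ⁻¹).injective he]; exact hy)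
    have h2 := h _ h1
    have h3 : τ (τ⁻¹ x) = x := τ.apply_symm_apply x
    rw [Equiv.Perm.mul_apply, Equiv.Perm.mul_apply, h3] at h2
    exact (τ⁻¹).injective h2
  · intro h x hx
    have h1 : τ x ∉ S := by
      intro h2
      apply hx
      refine mem_map.2 ⟨τ x, h2, ?_⟩
      exact τ.symm_apply_apply x
    rw [Equiv.Perm.mul_apply, Equiv.Perm.mul_apply, h _ h1]
    exact τ.symm_apply_apply x

theorem alt_act (S : Finset ι) (τ : Equiv.Perm ι) (F : (ι → A) → T) :
    alt S (act τ F) = act τ (alt (S.map (τ⁻¹).toEmbedding) F) := by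
  unfold alt
  rw [act_sum]
  refine Finset.sum_bij (fun σ _ => τ⁻¹ * σ * τ) (fun σ hσ => SymS_conj.2 hσ) ?_ ?_ ?_
  · intro σ _ σ' _ h
    exact mul_left_cancel (mul_right_cancel h)
  · intro ρ hρ
    refine ⟨τ * ρ * τ⁻¹, ?_, by group⟩
    rw [← SymS_conj (τ := τ)]
    have e : τ⁻¹ * (τ * ρ * τ⁻¹) * τ = ρ := by group
    rw [e]
    exact hρ
  · intro σ _
    rw [act_zsmul, ← act_mul, ← act_mul]
    congr 2
    · rw [Equiv.Perm.sign_mul, Equiv.Perm.sign_mul, Equiv.Perm.sign_inv, mul_comm (Equiv.Perm.sign τ), mul_assoc,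
        Int.units_mul_self, mul_one]
    · group

theorem sm_act (S : Finset ι) (τ : Equiv.Perm ι) (F : (ι → A) → T) :
    sm S (act τ F) = act τ (sm (S.map (τ⁻¹).toEmbedding) F) := by
  unfold sm
  rw [act_sum]
  refine Finset.sum_bij (fun σ _ => τ⁻¹ * σ * τ) (fun σ hσ => SymS_conj.2 hσ) ?_ ?_ ?_
  · intro σ _ σ' _ h
    exact mul_left_cancel (mul_right_cancel h)
  · intro ρ hρ
    refine ⟨τ * ρ * τ⁻¹, ?_, by group⟩
    rw [← SymS_conj (τ := τ)]
    have e : τ⁻¹ * (τ * ρ * τ⁻¹) * τ = ρ := by group
    rw [e]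
    exact hρ
  · intro σ _
    rw [← act_mul, ← act_mul]
    congr 1
    group

theorem VV.act {k m : ℕ} {U : Finset ι} {F : (ι → A) → T} (h : VV k m U F) {τ : Equiv.Perm ι} (hτ : τ ∈ SymS U) :
    VV k m U (act τ F) := by
  have hmap : ∀ S ⊆ U, S.map (τ⁻¹).toEmbedding ⊆ U := by
    intro S hS x hx
    obtain ⟨y, hy, rfl⟩ := mem_map.1 hx
    exact SymS_mem (SymS_inv hτ) (hS hy)
  refine ⟨fun S hS hc => ?_, fun S hS hc => ?_⟩
  · rw [alt_act, h.al _ (hmap S hS) (by rw [card_map]; exact hc), act_zero]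
  · rw [sm_act, h.sm _ (hmap S hS) (by rw [card_map]; exact hc), act_zero]

theorem alt_sum {β : Type} (s : Finset β) (S : Finset ι) (n : β → ℤ) (F : β → (ι → A) → T) :
    alt S (∑ b ∈ s, n b • F b) = ∑ b ∈ s, n b • alt S (F b) := by
  unfold alt
  simp only [act_sum, act_zsmul, Finset.smul_sum]
  rw [Finset.sum_comm]
  refine Finset.sum_congr rfl fun b _ => Finset.sum_congr rfl fun σ _ => ?_
  rw [smul_comm]

theorem sm_sum {β : Type} (s : Finset β) (S : Finset ι) (n : β → ℤ) (F : β → (ι → A) → T) :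
    sm S (∑ b ∈ s, n b • F b) = ∑ b ∈ s, n b • sm S (F b) := by
  unfold sm
  simp only [act_sum, act_zsmul, Finset.smul_sum]
  rw [Finset.sum_comm]

theorem VV.alt {k m : ℕ} {U : Finset ι} {F : (ι → A) → T} (h : VV k m U F) {B : Finset ι} (hB : B ⊆ U) :
    VV k m U (alt B F) := by
  refine ⟨fun S hS hc => ?_, fun S hS hc => ?_⟩
  · unfold YT.alt
    rw [← YT.alt, alt_sum]
    exact Finset.sum_eq_zero fun σ hσ => by rw [(h.act (SymS_mono hB hσ)).al S hS hc, smul_zero]
  · unfold YT.alt
    rw [sm_sum]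
    exact Finset.sum_eq_zero fun σ hσ => by rw [(h.act (SymS_mono hB hσ)).sm S hS hc, smul_zero]

theorem altOn_alt (B : Finset ι) (F : (ι → A) → T) : AltOn B (YT.alt B F) := by
  intro τ hτ
  unfold YT.alt
  rw [act_sum, Finset.smul_sum]
  refine Finset.sum_bij (fun σ _ => τ * σ) (fun σ hσ => SymS_mul hτ hσ) ?_ ?_ ?_
  · intro σ _ σ' _ h
    exact mul_left_cancel h
  · intro ρ hρ
    exact ⟨τ⁻¹ * ρ, SymS_mul (SymS_inv hτ) hρ, by group⟩
  · intro σ _
    rw [act_zsmul, ← act_mul, smul_smul, Equiv.Perm.sign_mul, Units.val_mul, ← mul_assoc, ← Units.val_mul, Int.units_mul_self,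
      Units.val_one, one_mul]

theorem commute_of_disjoint {S S' : Finset ι} (h : Disjoint S S') {σ τ : Equiv.Perm ι} (hσ : σ ∈ SymS S) (hτ : τ ∈ SymS S') :
    σ * τ = τ * σ := by
  refine Equiv.ext fun x => ?_
  rw [Equiv.Perm.mul_apply, Equiv.Perm.mul_apply]
  by_cases hx : x ∈ S
  · have h1 : σ x ∉ S' := fun h2 => disjoint_left.1 h (SymS_mem hσ hx) h2
    rw [mem_SymS.1 hτ x (fun h2 => disjoint_left.1 h hx h2), mem_SymS.1 hτ _ h1]
  · by_cases hx' : x ∈ S'
    · have h1 : τ x ∉ S := fun h2 => disjoint_left.1 h h2 (SymS_mem hτ hx')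
      rw [mem_SymS.1 hσ _ h1, mem_SymS.1 hσ x hx]
    · rw [mem_SymS.1 hσ x hx, mem_SymS.1 hτ x hx', mem_SymS.1 hσ x hx]

theorem AltOn.alt {B S : Finset ι} {F : (ι → A) → T} (h : AltOn B F) (hd : Disjoint B S) : AltOn B (YT.alt S F) := by
  intro τ hτ
  unfold YT.alt
  rw [act_sum, Finset.smul_sum]
  refine Finset.sum_congr rfl fun σ hσ => ?_
  rw [act_zsmul, ← act_mul, commute_of_disjoint hd hτ hσ, act_mul, h τ hτ, act_zsmul, smul_comm]

/-- the exchange relation -/
theorem exch {k m : ℕ} {U : Finset ι} (hT : ∀ (x : T) (n : ℕ), 0 < n → n • x = 0 → x = 0) {D : (ι → A) → T} (hD : VV (k + 1) m U D)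
    {B : Finset ι} (hB : B ⊆ U) (hc : B.card = k) (hA : AltOn B D) {y : ι} (hy : y ∈ U) (hyB : y ∉ B) :
    ∑ x ∈ B, act (Equiv.swap x y) D = D := by
  have hS := hD.al (insert y B) (insert_subset hy hB) (by rw [card_insert_of_notMem hyB, hc])
  -- the cosets
  have key : YT.alt (insert y B) D = ∑ x ∈ insert y B, ∑ τ ∈ SymS B, ((Equiv.Perm.sign (Equiv.swap x y * τ) : ℤˣ) : ℤ) • act (Equiv.swap x y * τ) D := by
    rw [← Finset.sum_product']
    symm
    unfold YT.alt
    refine Finset.sum_bij (fun p _ => Equiv.swap p.1 y * p.2) ?_ ?_ ?_ ?_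
    · intro p hp
      obtain ⟨h1, h2⟩ := mem_product.1 hp
      exact SymS_mul (swap_mem h1 (mem_insert_self y B)) (SymS_mono (subset_insert y B) h2)
    · intro p hp p' hp' h
      obtain ⟨h1, h2⟩ := mem_product.1 hp
      obtain ⟨h3, h4⟩ := mem_product.1 hp'
      have h5 := congrArg (fun σ : Equiv.Perm ι => σ y) h
      simp only [Equiv.Perm.mul_apply, mem_SymS.1 h2 y hyB, mem_SymS.1 h4 y hyB, Equiv.swap_apply_right] at h5
      refine Prod.ext h5 ?_
      rw [h5] at h
      exact mul_left_cancel h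
    · intro σ hσ
      have hx : σ y ∈ insert y B := SymS_mem hσ (mem_insert_self y B)
      refine ⟨(σ y, Equiv.swap (σ y) y * σ), mem_product.2 ⟨hx, mem_SymS.2 fun z hz => ?_⟩, ?_⟩
      · rw [Equiv.Perm.mul_apply]
        by_cases hzy : z = y
        · subst hzy
          exact Equiv.swap_apply_left _ _
        · have h1 : z ∉ insert y B := fun h2 => (mem_insert.1 h2).elim hzy hz
          have h3 : σ z = z := mem_SymS.1 hσ z h1
          rw [h3]
          refine Equiv.swap_apply_of_ne_of_ne ?_ hzy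
          intro h4
          apply hzy
          apply σ.injective
          rw [h3]
          exact h4
      · show Equiv.swap (σ y) y * (Equiv.swap (σ y) y * σ) = σ
        rw [← mul_assoc, Equiv.swap_mul_self, one_mul]
    · intro p _
      rfl
  have h2 : ∀ x ∈ insert y B, ∑ τ ∈ SymS B, ((Equiv.Perm.sign (Equiv.swap x y * τ) : ℤˣ) : ℤ) • act (Equiv.swap x y * τ) D =
      (SymS B).card • (((Equiv.Perm.sign (Equiv.swap x y) : ℤˣ) : ℤ) • act (Equiv.swap x y) D) := by
    intro x _
    rw [← Finset.sum_const]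
    refine Finset.sum_congr rfl fun τ hτ => ?_
    rw [act_mul, hA τ hτ, act_zsmul, smul_smul, Equiv.Perm.sign_mul, Units.val_mul, mul_assoc, ← Units.val_mul, Int.units_mul_self,
      Units.val_one, mul_one]
  rw [hS, Finset.sum_congr rfl h2, ← Finset.smul_sum] at key
  have hcard : 0 < (SymS B).card := Finset.card_pos.2 ⟨1, SymS_one B⟩
  have h3 : ∑ x ∈ insert y B, ((Equiv.Perm.sign (Equiv.swap x y) : ℤˣ) : ℤ) • act (Equiv.swap x y) D = 0 := by
    funext w
    exact hT _ _ hcard (congrFun key.symm w)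
  rw [sum_insert hyB] at h3
  have h4 : ∀ x ∈ B, ((Equiv.Perm.sign (Equiv.swap x y) : ℤˣ) : ℤ) • act (Equiv.swap x y) D = - act (Equiv.swap x y) D := by
    intro x hx
    have hne : x ≠ y := fun h => hyB (h ▸ hx)
    rw [Equiv.Perm.sign_swap hne, Units.val_neg, Units.val_one, neg_smul, one_smul]
  rw [Finset.sum_congr rfl h4, Finset.sum_neg_distrib] at h3
  have h5 : (((Equiv.Perm.sign (Equiv.swap y y) : ℤˣ) : ℤ)) • act (Equiv.swap y y) D = D := by
    rw [Equiv.swap_self]
    have e : (Equiv.refl ι : Equiv.Perm ι) = 1 := rfl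
    rw [e, Equiv.Perm.sign_one, Units.val_one, one_smul, act_one]
  rw [h5] at h3
  exact (add_neg_eq_zero.1 h3).symm

section Via

variable {m : ℕ}

/-- the permutation `t i ↦ t (σ i)` -/
noncomputable def via (σ : Equiv.Perm (Fin m)) {t : Fin m → ι} (ht : Function.Injective t) : Equiv.Perm ι :=
  σ.viaFintypeEmbedding ⟨t, ht⟩

omit [Fintype ι] in
theorem via_img (σ : Equiv.Perm (Fin m)) {t : Fin m → ι} (ht : Function.Injective t) (i : Fin m) : via σ ht (t i) = t (σ i) :=
  Equiv.Perm.viaFintypeEmbedding_apply_image σ ⟨t, ht⟩ i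

omit [Fintype ι] in
theorem via_not (σ : Equiv.Perm (Fin m)) {t : Fin m → ι} (ht : Function.Injective t) {x : ι} (hx : ∀ i, t i ≠ x) : via σ ht x = x := by
  refine Equiv.Perm.viaFintypeEmbedding_apply_notMem_range σ ⟨t, ht⟩ ?_
  rintro ⟨i, hi⟩
  exact hx i hi

theorem via_eq (σ : Equiv.Perm (Fin m)) {t : Fin m → ι} (ht : Function.Injective t) {ρ : Equiv.Perm ι}
    (h1 : ∀ i, ρ (t i) = t (σ i)) (h2 : ∀ x, (∀ i, t i ≠ x) → ρ x = x) : ρ = via σ ht := by
  refine Equiv.ext fun x => ?_
  by_cases hx : ∃ i, t i = x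
  · obtain ⟨i, rfl⟩ := hx
    rw [via_img, h1]
  · push Not at hx
    rw [via_not σ ht hx, h2 x hx]

theorem via_one {t : Fin m → ι} (ht : Function.Injective t) : via 1 ht = 1 :=
  (via_eq 1 ht (fun _ => rfl) (fun _ _ => rfl)).symm

theorem via_mul (σ τ : Equiv.Perm (Fin m)) {t : Fin m → ι} (ht : Function.Injective t) : via (σ * τ) ht = via σ ht * via τ ht := by
  symm
  refine via_eq _ ht (fun i => ?_) (fun x hx => ?_)
  · rw [Equiv.Perm.mul_apply, via_img, via_img]
    rfl
  · rw [Equiv.Perm.mul_apply, via_not τ ht hx, via_not σ ht hx]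

theorem via_swap (i j : Fin m) {t : Fin m → ι} (ht : Function.Injective t) : via (Equiv.swap i j) ht = Equiv.swap (t i) (t j) := by
  symm
  refine via_eq _ ht (fun l => ?_) (fun x hx => ?_)
  · by_cases hi : l = i
    · rw [hi, Equiv.swap_apply_left, Equiv.swap_apply_left]
    · by_cases hj : l = j
      · rw [hj, Equiv.swap_apply_right, Equiv.swap_apply_right]
      · rw [Equiv.swap_apply_of_ne_of_ne hi hj, Equiv.swap_apply_of_ne_of_ne (fun h => hi (ht h)) (fun h => hj (ht h))]
  · exact Equiv.swap_apply_of_ne_of_ne (fun h => hx i h.symm) (fun h => hx j h.symm)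

theorem via_upd (σ : Equiv.Perm (Fin m)) {i : Fin m} (hσ : σ i = i) {t : Fin m → ι} (ht : Function.Injective t) {y : ι}
    (hy : Function.Injective (Function.update t i y)) : via σ hy = via σ ht := by
  refine via_eq σ ht (fun l => ?_) (fun x hx => ?_)
  · by_cases hl : l = i
    · subst hl
      rw [hσ]
      by_cases hyt : y = t l
      · have h1 := via_img σ hy l
        rw [hσ, Function.update_self] at h1
        subst hyt
        exact h1
      · refine via_not σ hy fun j hj => ?_
        by_cases hjl : j = l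
        · subst hjl
          rw [Function.update_self] at hj
          exact hyt hj
        · rw [Function.update_of_ne hjl] at hj
          exact hjl (ht hj)
    · have h1 := via_img σ hy l
      rw [Function.update_of_ne hl, Function.update_of_ne] at h1
      · exact h1
      · intro h2
        apply hl
        apply σ.injective
        rw [h2, hσ]
  · by_cases hxy : x = y
    · subst hxy
      have h1 := via_img σ hy i
      rw [hσ, Function.update_self] at h1
      exact h1
    · refine via_not σ hy fun j hj => ?_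
      by_cases hji : j = i
      · subst hji
        rw [Function.update_self] at hj
        exact hxy hj.symm
      · rw [Function.update_of_ne hji] at hj
        exact hx j hj

/-- the sum over the permutations of a transversal -/
theorem sm_via {t : Fin m → ι} (ht : Function.Injective t) (D : (ι → A) → T) :
    sm (univ.image t) D = ∑ σ : Equiv.Perm (Fin m), act (via σ ht) D := by
  unfold sm
  symm
  refine Finset.sum_bij (fun σ _ => via σ ht) ?_ ?_ ?_ ?_
  · intro σ _
    refine mem_SymS.2 fun x hx => via_not σ ht fun i hi => hx ?_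
    exact mem_image.2 ⟨i, mem_univ i, hi⟩
  · intro σ _ σ' _ h
    refine Equiv.ext fun i => ht ?_
    rw [← via_img σ ht, ← via_img σ' ht, h]
  · intro ρ hρ
    have h1 : ∀ i, ∃ j, t j = ρ (t i) := by
      intro i
      have h2 := SymS_mem hρ (mem_image.2 ⟨i, mem_univ i, rfl⟩)
      obtain ⟨j, _, hj⟩ := mem_image.1 h2
      exact ⟨j, hj⟩
    choose s hs using h1
    have hinj : Function.Injective s := by
      intro i j hij
      have h2 := hs i
      rw [hij, hs j] at h2
      exact (ht (ρ.injective h2)).symm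
    refine ⟨Equiv.ofBijective s (Finite.injective_iff_bijective.1 hinj), mem_univ _, ?_⟩
    symm
    refine via_eq _ ht (fun i => (hs i).symm) (fun x hx => ?_)
    refine mem_SymS.1 hρ x fun h2 => ?_
    obtain ⟨i, _, hi⟩ := mem_image.1 h2
    exact hx i hi
  · intro σ _
    rfl

omit [Fintype ι] [DecidableEq ι] in
/-- blocks -/
theorem trans_inj {B : Fin m → Finset ι} (hd : ∀ i j, i ≠ j → Disjoint (B i) (B j)) {t : Fin m → ι} (ht : ∀ i, t i ∈ B i) :
    Function.Injective t := by
  intro i j hij
  by_contra hne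
  exact disjoint_left.1 (hd i j hne) (ht i) (hij ▸ ht j)

/-- the sum over the transversals -/
noncomputable def EE (B : Fin m → Finset ι) (hd : ∀ i j, i ≠ j → Disjoint (B i) (B j)) (D : (ι → A) → T) (σ : Equiv.Perm (Fin m)) :
    (ι → A) → T :=
  ∑ t : {t : Fin m → ι // ∀ i, t i ∈ B i}, act (via σ (trans_inj hd t.2)) D

theorem EE_step {k r : ℕ} {U : Finset ι} (hT : ∀ (x : T) (n : ℕ), 0 < n → n • x = 0 → x = 0) {D : (ι → A) → T} (hD : VV (k + 1) r U D)
    {B : Fin m → Finset ι} (hd : ∀ i j, i ≠ j → Disjoint (B i) (B j)) (hB : ∀ i, B i ⊆ U) (hc : ∀ i, (B i).card = k)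
    (hA : ∀ i, AltOn (B i) D) (σ : Equiv.Perm (Fin m)) (i : Fin m) (hi : σ i ≠ i) :
    k • EE B hd D σ = EE B hd D (σ * Equiv.swap i (σ.symm i)) := by
  set j := σ.symm i with hj
  have hji : j ≠ i := by
    intro h
    apply hi
    rw [← h]
    show σ j = j
    rw [hj, Equiv.apply_symm_apply, ← hj]
    exact h.symm
  have hσj : σ j = i := σ.apply_symm_apply i
  set σ' := σ * Equiv.swap i j with hσ'
  have h1 : σ' i = i := by
    rw [hσ', Equiv.Perm.mul_apply, Equiv.swap_apply_left, hσj]
  have h2 : σ = σ' * Equiv.swap i j := by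
    rw [hσ', mul_assoc, Equiv.swap_mul_self, mul_one]
  unfold EE
  -- update the entry `i`
  let up : {t : Fin m → ι // ∀ i, t i ∈ B i} → {y // y ∈ B i} → {t : Fin m → ι // ∀ i, t i ∈ B i} := fun t y =>
    ⟨Function.update t.1 i y.1, fun l => by
      by_cases hl : l = i
      · subst hl
        rw [Function.update_self]
        exact y.2
      · rw [Function.update_of_ne hl]
        exact t.2 l⟩
  have h3 : ∀ g : {t : Fin m → ι // ∀ i, t i ∈ B i} → ((ι → A) → T),
      ∑ t, ∑ y : {y // y ∈ B i}, g (up t y) = k • ∑ t, g t := by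
    intro g
    rw [← Fintype.sum_prod_type']
    have h4 : k • ∑ t, g t = ∑ p : {t : Fin m → ι // ∀ i, t i ∈ B i} × {y // y ∈ B i}, g p.1 := by
      rw [Fintype.sum_prod_type, Finset.smul_sum]
      refine Finset.sum_congr rfl fun t _ => ?_
      show k • g t = ∑ _y : {y // y ∈ B i}, g t
      rw [Finset.sum_const, Finset.card_univ, Fintype.card_coe, hc]
    rw [h4]
    refine Finset.sum_bij' (fun p _ => (up p.1 p.2, ⟨p.1.1 i, p.1.2 i⟩)) (fun p _ => (up p.1 p.2, ⟨p.1.1 i, p.1.2 i⟩))
      (fun _ _ => mem_univ _) (fun _ _ => mem_univ _) ?_ ?_ ?_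
    · rintro ⟨t, y⟩ _
      refine Prod.ext (Subtype.ext ?_) (Subtype.ext ?_)
      · show Function.update (Function.update t.1 i y.1) i (t.1 i) = t.1
        rw [Function.update_idem, Function.update_eq_self]
      · show Function.update t.1 i y.1 i = y.1
        rw [Function.update_self]
    · rintro ⟨t, y⟩ _
      refine Prod.ext (Subtype.ext ?_) (Subtype.ext ?_)
      · show Function.update (Function.update t.1 i y.1) i (t.1 i) = t.1
        rw [Function.update_idem, Function.update_eq_self]
      · show Function.update t.1 i y.1 i = y.1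
        rw [Function.update_self]
    · rintro ⟨t, y⟩ _
      rfl
  rw [← h3]
  refine Finset.sum_congr rfl fun t _ => ?_
  have h5 : ∀ y : {y // y ∈ B i}, act (via σ (trans_inj hd (up t y).2)) D =
      act (via σ' (trans_inj hd t.2)) (act (Equiv.swap y.1 (t.1 j)) D) := by
    intro y
    have e : via σ (trans_inj hd (up t y).2) = via σ' (trans_inj hd t.2) * Equiv.swap y.1 (t.1 j) := by
      conv_lhs => rw [h2]
      rw [via_mul, via_swap]
      have e1 : (up t y).1 i = y.1 := Function.update_self i y.1 t.1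
      have e2 : (up t y).1 j = t.1 j := Function.update_of_ne hji y.1 t.1
      rw [e1, e2, via_upd σ' h1 (trans_inj hd t.2) (trans_inj hd (up t y).2)]
    rw [e, act_mul]
  rw [Finset.sum_congr rfl fun y _ => h5 y, ← act_sum]
  congr 1
  have h6 := exch hT hD (hB i) (hc i) (hA i) (hB j (t.2 j)) (fun h => disjoint_left.1 (hd j i hji) (t.2 j) h)
  rw [Finset.univ_eq_attach, Finset.sum_attach (B i) (fun y => act (Equiv.swap y (t.1 j)) D)]
  exact h6

theorem EE_one {B : Fin m → Finset ι} (hd : ∀ i j, i ≠ j → Disjoint (B i) (B j)) (D : (ι → A) → T) {k : ℕ} (hc : ∀ i, (B i).card = k) :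
    EE B hd D 1 = k ^ m • D := by
  unfold EE
  have h1 : ∀ t : {t : Fin m → ι // ∀ i, t i ∈ B i}, act (via 1 (trans_inj hd t.2)) D = D := by
    intro t
    rw [via_one, act_one]
  rw [Finset.sum_congr rfl fun t _ => h1 t, Finset.sum_const]
  congr 1
  rw [Finset.card_univ]
  have e : Fintype.card {t : Fin m → ι // ∀ i, t i ∈ B i} = (Fintype.piFinset B).card := by
    rw [Fintype.card_subtype]
    congr 1
    ext t
    rw [mem_filter, Fintype.mem_piFinset]
    exact ⟨fun h => h.2, fun h => ⟨mem_univ _, h⟩⟩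
  rw [e, Fintype.card_piFinset, Finset.prod_congr rfl fun i _ => hc i, Finset.prod_const, Finset.card_univ, Fintype.card_fin]

theorem EE_all {k r : ℕ} {U : Finset ι} (hT : ∀ (x : T) (n : ℕ), 0 < n → n • x = 0 → x = 0) {D : (ι → A) → T} (hD : VV (k + 1) r U D)
    {B : Fin m → Finset ι} (hd : ∀ i j, i ≠ j → Disjoint (B i) (B j)) (hB : ∀ i, B i ⊆ U) (hc : ∀ i, (B i).card = k)
    (hA : ∀ i, AltOn (B i) D) : ∀ (n : ℕ) (σ : Equiv.Perm (Fin m)), (univ.filter fun i => σ i ≠ i).card = n →
      ∃ a : ℕ, k ^ a • EE B hd D σ = k ^ m • D := by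
  intro n
  induction n using Nat.strong_induction_on with
  | _ n ih =>
    intro σ hσ
    by_cases h : ∃ i, σ i ≠ i
    · obtain ⟨i, hi⟩ := h
      have hstep := EE_step hT hD hd hB hc hA σ i hi
      set σ' := σ * Equiv.swap i (σ.symm i) with hσ'
      have hlt : (univ.filter fun l => σ' l ≠ l).card < n := by
        rw [← hσ]
        apply Finset.card_lt_card
        rw [Finset.ssubset_iff_of_subset]
        · refine ⟨i, mem_filter.2 ⟨mem_univ _, hi⟩, ?_⟩
          intro h1
          apply (mem_filter.1 h1).2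
          rw [hσ', Equiv.Perm.mul_apply, Equiv.swap_apply_left, Equiv.apply_symm_apply]
        · intro l hl
          refine mem_filter.2 ⟨mem_univ _, fun h1 => ?_⟩
          apply (mem_filter.1 hl).2
          rw [hσ', Equiv.Perm.mul_apply]
          by_cases hli : l = i
          · exact absurd (hli ▸ h1) hi
          · have hls : l ≠ σ.symm i := by
              intro h2
              apply hli
              rw [← h1, h2, Equiv.apply_symm_apply]
            rw [Equiv.swap_apply_of_ne_of_ne hli hls, h1]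
      obtain ⟨a, ha⟩ := ih _ hlt σ' rfl
      refine ⟨a + 1, ?_⟩
      rw [pow_succ, mul_smul, hstep]
      exact ha
    · push Not at h
      have e : σ = 1 := Equiv.ext h
      subst e
      exact ⟨0, by rw [pow_zero, one_smul, EE_one hd D hc]⟩

end Via

/-- alternating in `m` disjoint blocks of size `k ≥ 1` -/
theorem blocks_zero {k m : ℕ} (hk : 0 < k) {U : Finset ι} (hT : ∀ (x : T) (n : ℕ), 0 < n → n • x = 0 → x = 0) {D : (ι → A) → T}
    (hD : VV (k + 1) m U D) {B : Fin m → Finset ι} (hd : ∀ i j, i ≠ j → Disjoint (B i) (B j)) (hB : ∀ i, B i ⊆ U)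
    (hc : ∀ i, (B i).card = k) (hA : ∀ i, AltOn (B i) D) : D = 0 := by
  have h1 := EE_all hT hD hd hB hc hA
  choose a ha using fun σ : Equiv.Perm (Fin m) => h1 _ σ rfl
  have h2 : ∑ σ : Equiv.Perm (Fin m), EE B hd D σ = 0 := by
    unfold EE
    rw [Finset.sum_comm]
    refine Finset.sum_eq_zero fun t _ => ?_
    rw [← sm_via (trans_inj hd t.2) D]
    refine hD.sm _ (fun x hx => ?_) ?_
    · obtain ⟨i, _, rfl⟩ := mem_image.1 hx
      exact hB i (t.2 i)
    · rw [Finset.card_image_of_injective _ (trans_inj hd t.2), Finset.card_univ, Fintype.card_fin]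
  set S : ℕ := ∑ σ : Equiv.Perm (Fin m), a σ with hS
  have h3 : ∀ σ, k ^ S • EE B hd D σ = (k ^ (S - a σ) * k ^ m) • D := by
    intro σ
    have h4 : a σ ≤ S := Finset.single_le_sum (f := a) (fun _ _ => Nat.zero_le _) (mem_univ σ)
    have h5 : S = (S - a σ) + a σ := by omega
    rw [mul_smul, ← ha σ, ← mul_smul, ← pow_add, ← h5]
  have h6 : (∑ σ : Equiv.Perm (Fin m), k ^ (S - a σ) * k ^ m) • D = 0 := by
    rw [Finset.sum_smul, ← Finset.sum_congr rfl fun σ _ => h3 σ, ← Finset.smul_sum, h2, smul_zero]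
  have h7 : 0 < ∑ σ : Equiv.Perm (Fin m), k ^ (S - a σ) * k ^ m :=
    Finset.sum_pos (fun σ _ => Nat.mul_pos (Nat.pow_pos hk) (Nat.pow_pos hk)) ⟨1, mem_univ _⟩
  funext x
  exact hT _ _ h7 (congrFun h6 x)

/-- **a function with an alternating and a symmetric identity is zero** -/
theorem two_id (k m : ℕ) : ∃ N : ℕ, ∀ (ι A T : Type) [Fintype ι] [DecidableEq ι] [AddCommGroup T],
    (∀ (x : T) (n : ℕ), 0 < n → n • x = 0 → x = 0) → ∀ (U : Finset ι), N ≤ U.card → ∀ F : (ι → A) → T, VV k m U F → F = 0 := by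
  induction k with
  | zero =>
    refine ⟨0, ?_⟩
    intro ι A T _ _ _ _ U _ F hF
    have h := hF.al ∅ (empty_subset U) card_empty
    unfold YT.alt at h
    rw [SymS_empty, Finset.sum_singleton, Equiv.Perm.sign_one, Units.val_one, one_smul, act_one] at h
    exact h
  | succ k ih =>
    obtain ⟨N, hN⟩ := ih
    rcases Nat.eq_zero_or_pos k with hk0 | hk
    · subst hk0
      refine ⟨1, ?_⟩
      intro ι A T _ _ _ _ U hU F hF
      obtain ⟨i, hi⟩ := Finset.card_pos.1 (lt_of_lt_of_le Nat.zero_lt_one hU)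
      have h := hF.al {i} (singleton_subset_iff.2 hi) (card_singleton i)
      unfold YT.alt at h
      rw [SymS_single, Finset.sum_singleton, Equiv.Perm.sign_one, Units.val_one, one_smul, act_one] at h
      exact h
    · refine ⟨k * m + N, ?_⟩
      intro ι A T _ _ _ hT U hU F hF
      -- downward induction on the number of blocks
      have key : ∀ (n : ℕ) (L : List (Finset ι)), L.length + n = m → L.Pairwise Disjoint → (∀ B ∈ L, B ⊆ U ∧ B.card = k) →
          ∀ G : (ι → A) → T, VV (k + 1) m U G → (∀ B ∈ L, AltOn B G) → G = 0 := by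
        intro n
        induction n with
        | zero =>
          intro L hL hp hB G hG hA
          rw [add_zero] at hL
          subst hL
          refine blocks_zero hk hT hG (B := L.get) ?_ (fun i => (hB _ (L.get_mem i)).1) (fun i => (hB _ (L.get_mem i)).2)
            (fun i => hA _ (L.get_mem i))
          intro i j hij
          rcases lt_or_gt_of_ne hij with h | h
          · exact (List.pairwise_iff_get.1 hp) i j h
          · exact ((List.pairwise_iff_get.1 hp) j i h).symm
        | succ n ihn =>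
          intro L hL hp hB G hG hA
          set U' : Finset ι := U \ (L.toFinset.biUnion id) with hU'
          have hUcard : N ≤ U'.card := by
            have h1 : (L.toFinset.biUnion id).card ≤ L.length * k := by
              refine le_trans Finset.card_biUnion_le ?_
              refine le_trans (Finset.sum_le_card_nsmul _ _ k fun B hB' => ?_) ?_
              · exact (hB B (List.mem_toFinset.1 hB')).2.le
              · rw [smul_eq_mul]
                exact Nat.mul_le_mul_right k (List.toFinset_card_le L)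
            have h2 := Finset.le_card_sdiff (L.toFinset.biUnion id) U
            have h3 : L.length * k ≤ k * m := by
              rw [mul_comm]
              exact Nat.mul_le_mul_left k (by omega)
            rw [← hU'] at h2
            omega
          have hsub : U' ⊆ U := Finset.sdiff_subset
          refine hN ι A T hT U' hUcard G ⟨fun S hS hSc => ?_, fun S hS hSc => hG.sm S (hS.trans hsub) hSc⟩
          have hdis : ∀ B ∈ L, Disjoint B S := by
            intro B hBL
            rw [disjoint_left]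
            intro x hx hxS
            have h1 := hS hxS
            rw [hU', mem_sdiff] at h1
            exact h1.2 (mem_biUnion.2 ⟨B, List.mem_toFinset.2 hBL, hx⟩)
          refine ihn (S :: L) ?_ ?_ ?_ _ (hG.alt (hS.trans hsub)) ?_
          · rw [List.length_cons]
            omega
          · exact List.Pairwise.cons (fun B hBL => (hdis B hBL).symm) hp
          · intro B hBL
            rcases List.mem_cons.1 hBL with rfl | h
            · exact ⟨hS.trans hsub, hSc⟩
            · exact hB B h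
          · intro B hBL
            rcases List.mem_cons.1 hBL with rfl | h
            · exact altOn_alt _ _
            · exact (hA B h).alt (hdis B h)
      exact key m [] (by rw [List.length_nil, Nat.zero_add]) List.Pairwise.nil (fun B hB => absurd hB List.not_mem_nil) F hF
        (fun B hB => absurd hB List.not_mem_nil)

end H67.YT
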